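import Pool.Agent.Helper15.TS.St

/-!
# Project TS (MP_434a84_lc): module REG (intersection with counting conditions)
-/

set_option autoImplicit false

namespace Pool.Agent.Helper66.TS

open Pool.Agent.Helper22.FL Pool.Agent.Helper22.CS Pool.Agent.Helper15.TS

/-- counting automaton for one letter -/
private theorem count_inter {n : ℕ} (L : Language (Fin n)) (hL : L.IsContextFree) (i : Fin n)
    (φ : ℕ → ℕ) (K : ℕ) (hK : ∀ x, φ x < K) (hφ : ∀ x y, φ (φ x + y) = φ (x + y)) (r : ℕ)
    (hr : r < K) :
    Language.IsContextFree ({w | w ∈ L ∧ φ (w.count i) = r} : Language (Fin n)) := by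
  have hK0 : 0 < K := lt_of_le_of_lt (Nat.zero_le _) hr
  let A : Runs (Fin n) (Fin K) :=
    { rel := fun p w q => (q : ℕ) = φ ((p : ℕ) + w.count i)
      append := by
        intro p u v q
        rw [List.count_append]
        constructor
        · intro h
          refine ⟨⟨φ ((p : ℕ) + u.count i), hK _⟩, rfl, ?_⟩
          change (q : ℕ) = φ (φ ((p : ℕ) + u.count i) + v.count i)
          rw [hφ, h, add_assoc]
        · rintro ⟨m, h1, h2⟩
          rw [h2, h1, hφ, add_assoc] }
  have h := isContextFree_inter hL A ⟨0, hK0⟩ ⟨r, hr⟩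
  have e : ({w | w ∈ L ∧ φ (w.count i) = r} : Language (Fin n)) =
      ({w | w ∈ L ∧ A.rel ⟨0, hK0⟩ w ⟨r, hr⟩} : Language (Fin n)) := by
    ext w
    change (w ∈ L ∧ φ (w.count i) = r) ↔ (w ∈ L ∧ r = φ (0 + w.count i))
    rw [zero_add]
    exact and_congr_right fun _ => eq_comm
  rw [e]
  exact h

private theorem count_eq {n : ℕ} (L : Language (Fin n)) (hL : L.IsContextFree) (i : Fin n) (a : ℕ) :
    Language.IsContextFree ({w | w ∈ L ∧ w.count i = a} : Language (Fin n)) := by
  have h := count_inter L hL i (fun x => min x (a + 1)) (a + 2) (fun x => by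
    omega) (fun x y => by
    omega) a (by omega)
  have e : ({w | w ∈ L ∧ w.count i = a} : Language (Fin n)) =
      ({w | w ∈ L ∧ min (w.count i) (a + 1) = a} : Language (Fin n)) := by
    ext w
    change (w ∈ L ∧ w.count i = a) ↔ (w ∈ L ∧ min (w.count i) (a + 1) = a)
    exact and_congr_right fun _ => by omega
  rw [e]
  exact h

private theorem count_mod {n : ℕ} (L : Language (Fin n)) (hL : L.IsContextFree) (i : Fin n)
    (a d : ℕ) (hd : 1 ≤ d) :
    Language.IsContextFree ({w | w ∈ L ∧ a ≤ w.count i ∧ d ∣ w.count i - a} :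
      Language (Fin n)) := by
  let φ : ℕ → ℕ := fun x => if x < a then x else a + (x - a) % d
  have hlt : ∀ x, φ x < a + d := by
    intro x
    change (if x < a then x else a + (x - a) % d) < a + d
    split_ifs with h
    · omega
    · have := Nat.mod_lt (x - a) (show d > 0 by omega)
      omega
  have hφ : ∀ x y, φ (φ x + y) = φ (x + y) := by
    intro x y
    by_cases h : x < a
    · have : φ x = x := if_pos h
      rw [this]
    · have h1 : φ x = a + (x - a) % d := if_neg h
      have h2 : φ (x + y) = a + (x + y - a) % d := if_neg (by omega)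
      have h3 : φ (a + (x - a) % d + y) = a + (a + (x - a) % d + y - a) % d :=
        if_neg (by omega)
      rw [h1, h2, h3]
      have e1 : a + (x - a) % d + y - a = (x - a) % d + y := by omega
      have e2 : x + y - a = (x - a) + y := by omega
      rw [e1, e2, Nat.mod_add_mod]
  have h := count_inter L hL i φ (a + d) hlt hφ a (by omega)
  have e : ({w | w ∈ L ∧ a ≤ w.count i ∧ d ∣ w.count i - a} : Language (Fin n)) =
      ({w | w ∈ L ∧ φ (w.count i) = a} : Language (Fin n)) := by
    ext w
    change (w ∈ L ∧ a ≤ w.count i ∧ d ∣ w.count i - a) ↔ (w ∈ L ∧ φ (w.count i) = a)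
    refine and_congr_right fun _ => ?_
    by_cases hx : w.count i < a
    · have h1 : φ (w.count i) = w.count i := if_pos hx
      rw [h1]
      omega
    · have h1 : φ (w.count i) = a + (w.count i - a) % d := if_neg hx
      rw [h1, Nat.dvd_iff_mod_eq_zero]
      omega
  rw [e]
  exact h

theorem streg : StREG := by
  intro n L I a d hd hL
  classical
  let cond : Fin n → ℕ → Prop := fun i c =>
    (i ∉ I → c = a i) ∧ (i ∈ I → a i ≤ c ∧ d ∣ c - a i)
  have key : ∀ s : Finset (Fin n),
      Language.IsContextFree ({w | w ∈ L ∧ ∀ i ∈ s, cond i (w.count i)} : Language (Fin n)) := by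
    intro s
    induction s using Finset.induction_on with
    | empty =>
      have e : ({w | w ∈ L ∧ ∀ i ∈ (∅ : Finset (Fin n)), cond i (w.count i)} :
          Language (Fin n)) = L := by
        ext w
        change (w ∈ L ∧ ∀ i ∈ (∅ : Finset (Fin n)), cond i (w.count i)) ↔ w ∈ L
        simp
      rw [e]
      exact hL
    | insert j s hj ih =>
      by_cases hjI : j ∈ I
      · have h := count_mod _ ih j (a j) d hd
        have e : ({w | w ∈ L ∧ ∀ i ∈ insert j s, cond i (w.count i)} : Language (Fin n)) =
            ({w | w ∈ ({w | w ∈ L ∧ ∀ i ∈ s, cond i (w.count i)} : Language (Fin n)) ∧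
              a j ≤ w.count j ∧ d ∣ w.count j - a j} : Language (Fin n)) := by
          ext w
          change (w ∈ L ∧ ∀ i ∈ insert j s, cond i (w.count i)) ↔
            ((w ∈ L ∧ ∀ i ∈ s, cond i (w.count i)) ∧ a j ≤ w.count j ∧ d ∣ w.count j - a j)
          rw [Finset.forall_mem_insert]
          have hc : cond j (w.count j) ↔ (a j ≤ w.count j ∧ d ∣ w.count j - a j) :=
            ⟨fun h => h.2 hjI, fun h => ⟨fun h' => absurd hjI h', fun _ => h⟩⟩
          rw [hc]
          tauto
        rw [e]
        exact h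
      · have h := count_eq _ ih j (a j)
        have e : ({w | w ∈ L ∧ ∀ i ∈ insert j s, cond i (w.count i)} : Language (Fin n)) =
            ({w | w ∈ ({w | w ∈ L ∧ ∀ i ∈ s, cond i (w.count i)} : Language (Fin n)) ∧
              w.count j = a j} : Language (Fin n)) := by
          ext w
          change (w ∈ L ∧ ∀ i ∈ insert j s, cond i (w.count i)) ↔
            ((w ∈ L ∧ ∀ i ∈ s, cond i (w.count i)) ∧ w.count j = a j)
          rw [Finset.forall_mem_insert]
          have hc : cond j (w.count j) ↔ w.count j = a j :=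
            ⟨fun h => h.1 hjI, fun h => ⟨fun _ => h, fun h' => absurd h' hjI⟩⟩
          rw [hc]
          tauto
        rw [e]
        exact h
  have h := key Finset.univ
  have e : ({w | w ∈ L ∧ (∀ i, i ∉ I → w.count i = a i) ∧
      ∀ i ∈ I, a i ≤ w.count i ∧ d ∣ w.count i - a i} : Language (Fin n)) =
      ({w | w ∈ L ∧ ∀ i ∈ (Finset.univ : Finset (Fin n)), cond i (w.count i)} :
        Language (Fin n)) := by
    ext w
    change (w ∈ L ∧ (∀ i, i ∉ I → w.count i = a i) ∧
      ∀ i ∈ I, a i ≤ w.count i ∧ d ∣ w.count i - a i) ↔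
      (w ∈ L ∧ ∀ i ∈ (Finset.univ : Finset (Fin n)), cond i (w.count i))
    refine and_congr_right fun _ => ⟨fun h i _ => ⟨h.1 i, h.2 i⟩, fun h => ⟨fun i => ?_, fun i => ?_⟩⟩
    · exact (h i (Finset.mem_univ i)).1
    · exact (h i (Finset.mem_univ i)).2
  rw [e]
  exact h

end Pool.Agent.Helper66.TS
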