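import Pool.Agent.Helper12.TS.StB

set_option autoImplicit false

/-!
Module APM of project TS (owner helper12, problem MP_d63854_co): case alpha, the model.
-/

namespace Pool.Agent.Helper66.TS

open Pool.Agent.Helper12.TS
open Pool.Agent.Helper51.AJ (IsMinor Planar Apex ExMinor Con Tch con_union con_singleton
  con_nonempty)
open Pool.Agent.Helper12.NK (rst Kc add)

variable {V : Type}

private lemma con_congr {G H : SimpleGraph V} {X : Set V}
    (h : ∀ a ∈ X, ∀ b ∈ X, (G.Adj a b ↔ H.Adj a b)) (hc : Con G X) : Con H X := by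
  have he : G.induce X = H.induce X := by
    ext a b
    exact h a.1 a.2 b.1 b.2
  unfold Helper51.AJ.Con at hc ⊢
  rwa [← he]

/-- edges of the sum: inside `A ∪ T` with the end `a` not in `T` -/
private lemma adj_of {G : SimpleGraph V} {A T : Set V} {a b : V} (ha : a ∉ T)
    (h : (rst G (A ∪ T) ⊔ cl T).Adj a b) : G.Adj a b := by
  rcases h with h | h
  · exact h.1
  · exact absurd h.2.1 ha

private lemma adj_of' {G : SimpleGraph V} {A T : Set V} {a b : V} (ha : b ∉ T)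
    (h : (rst G (A ∪ T) ⊔ cl T).Adj a b) : G.Adj a b := (adj_of ha h.symm).symm

private lemma adj_to {G : SimpleGraph V} {A T : Set V} {a b : V} (ha : a ∈ A ∪ T)
    (hb : b ∈ A ∪ T) (h : G.Adj a b) : (rst G (A ∪ T) ⊔ cl T).Adj a b := Or.inl ⟨h, ha, hb⟩

/-- a set with at most one element of `T` which is connected in the sum is connected in `G` -/
private lemma con_of {G : SimpleGraph V} {A T X : Set V} (hX : X ⊆ A ∪ T)
    (h1 : ∀ a ∈ X, ∀ b ∈ X, a ∈ T → b ∈ T → a = b) (hc : Con (rst G (A ∪ T) ⊔ cl T) X) :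
    Con G X := by
  refine con_congr (fun a ha b hb => ⟨fun h => ?_, fun h => adj_to (hX ha) (hX hb) h⟩) hc
  by_cases haT : a ∈ T
  · by_cases hbT : b ∈ T
    · exact absurd (h1 a ha b hb haT hbT) h.ne
    · exact adj_of' hbT h
  · exact adj_of haT h

private lemma fin_step (hMDE : StMDE) (hMDQ : StMDQ) [Finite V] {G : SimpleGraph V}
    {A T : Set V} {ι : Type} [Finite ι] {Γ : SimpleGraph ι} {φ : ι → Set V}
    (hAT : Disjoint A T) (hT : T.Nonempty) (hk : Kc 3 Γ Set.univ) (hnp : ¬ Planar Γ)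
    (hc : Nat.card ι ≤ 6) (hmd : Md Γ (rst G (A ∪ T) ⊔ cl T) φ) (hcov : (⋃ i, φ i) = A ∪ T)
    (P : V → Set V) (hP : ∀ t ∈ T, Con G (P t) ∧ t ∈ P t ∧ P t ⊆ A ∪ {t})
    (hPd : ∀ t ∈ T, ∀ t' ∈ T, t ≠ t' → Disjoint (P t) (P t'))
    (hPf : ∀ i, (φ i ∩ T).Nonempty → φ i = ⋃ t ∈ φ i ∩ T, P t)
    (htch : ∀ t ∈ T, ∃ j, ¬ (φ j ∩ T).Nonempty ∧ Tch G (φ j) (P t)) :
    ∃ (ι : Type) (_ : Finite ι) (Γ : SimpleGraph ι) (φ : ι → Set V) (ρ : V → V),
      Mdl G (cl T) A T Γ φ ρ ∧ ∀ t ∈ T, Tch G (Zz A ρ) {z | ρ z = t} := by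
  obtain ⟨ρ, hM, hρ⟩ := hMDE V ι G (cl T) A T Γ φ P hAT le_rfl hk hnp hc hmd hcov hP hPd hPf
  refine ⟨ι, inferInstance, Γ, φ, ρ, hM, ?_⟩
  intro t ht
  obtain ⟨j, hj, x, hx, y, hy, hxy⟩ := htch t ht
  obtain ⟨-, -, hZ, -⟩ := hMDQ V ι G (cl T) A T Γ φ ρ hAT hT le_rfl hM
  refine ⟨x, ?_, y, ?_, hxy⟩
  · rw [hZ]
    exact Set.mem_biUnion (show j ∈ {i | ¬ (φ i ∩ T).Nonempty} from hj) hx
  · rw [hρ t ht]
    exact hy

/-- two parts `P₁ ∋ a`, `P₂ ∋ b` for `T = {a, b}` -/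
private lemma two_step (hMDE : StMDE) (hMDQ : StMDQ) [Finite V] {G : SimpleGraph V}
    {A : Set V} {a b : V} (hab : a ≠ b) {ι : Type} [Finite ι] {Γ : SimpleGraph ι}
    {φ : ι → Set V}
    (hAT : Disjoint A {a, b}) (hk : Kc 3 Γ Set.univ) (hnp : ¬ Planar Γ)
    (hc : Nat.card ι ≤ 6) (hmd : Md Γ (rst G (A ∪ {a, b}) ⊔ cl {a, b}) φ)
    (hcov : (⋃ i, φ i) = A ∪ {a, b})
    (P₁ P₂ : Set V) (h1 : Con G P₁) (h2 : Con G P₂) (ha : a ∈ P₁) (hb : b ∈ P₂)
    (hs1 : P₁ ⊆ A ∪ {a}) (hs2 : P₂ ⊆ A ∪ {b}) (hd : Disjoint P₁ P₂)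
    (hPf : ∀ i, (φ i ∩ {a, b}).Nonempty → (a ∈ φ i ∧ b ∉ φ i ∧ φ i = P₁) ∨
      (a ∉ φ i ∧ b ∈ φ i ∧ φ i = P₂) ∨ (a ∈ φ i ∧ b ∈ φ i ∧ φ i = P₁ ∪ P₂))
    (ht1 : ∃ j, ¬ (φ j ∩ {a, b}).Nonempty ∧ Tch G (φ j) P₁)
    (ht2 : ∃ j, ¬ (φ j ∩ {a, b}).Nonempty ∧ Tch G (φ j) P₂) :
    ∃ (ι : Type) (_ : Finite ι) (Γ : SimpleGraph ι) (φ : ι → Set V) (ρ : V → V),
      Mdl G (cl {a, b}) A {a, b} Γ φ ρ ∧
      ∀ t ∈ ({a, b} : Set V), Tch G (Zz A ρ) {z | ρ z = t} := by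
  classical
  obtain ⟨P, hPa, hPb⟩ : ∃ P : V → Set V, P a = P₁ ∧ P b = P₂ :=
    ⟨fun v => if v = a then P₁ else P₂, if_pos rfl, if_neg hab.symm⟩
  refine fin_step hMDE hMDQ hAT ⟨a, Or.inl rfl⟩ hk hnp hc hmd hcov P ?_ ?_ ?_ ?_
  · rintro t (rfl | ht)
    · rw [hPa]
      exact ⟨h1, ha, hs1⟩
    · rw [Set.mem_singleton_iff] at ht
      subst ht
      rw [hPb]
      exact ⟨h2, hb, hs2⟩
  · rintro t (rfl | ht) t' (rfl | ht') hne
    · exact absurd rfl hne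
    · rw [Set.mem_singleton_iff] at ht'
      subst ht'
      rw [hPa, hPb]
      exact hd
    · rw [Set.mem_singleton_iff] at ht
      subst ht
      rw [hPa, hPb]
      exact hd.symm
    · rw [Set.mem_singleton_iff] at ht ht'
      exact absurd (ht.trans ht'.symm) hne
  · intro i hi
    rcases hPf i hi with ⟨hai, hbi, he⟩ | ⟨hai, hbi, he⟩ | ⟨hai, hbi, he⟩
    · have hT : φ i ∩ {a, b} = {a} := by
        ext z
        constructor
        · rintro ⟨hz, rfl | hz'⟩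
          · rfl
          · rw [Set.mem_singleton_iff] at hz'
            subst hz'
            exact absurd hz hbi
        · intro hz
          rw [Set.mem_singleton_iff] at hz
          subst hz
          exact ⟨hai, Or.inl rfl⟩
      rw [hT, Set.biUnion_singleton, hPa]
      exact he
    · have hT : φ i ∩ {a, b} = {b} := by
        ext z
        constructor
        · rintro ⟨hz, rfl | hz'⟩
          · exact absurd hz hai
          · exact hz'
        · intro hz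
          rw [Set.mem_singleton_iff] at hz
          subst hz
          exact ⟨hbi, Or.inr rfl⟩
      rw [hT, Set.biUnion_singleton, hPb]
      exact he
    · have hT : φ i ∩ {a, b} = {a, b} := by
        ext z
        constructor
        · rintro ⟨hz, hz'⟩
          exact hz'
        · rintro (rfl | hz)
          · exact ⟨hai, Or.inl rfl⟩
          · rw [Set.mem_singleton_iff] at hz
            subst hz
            exact ⟨hbi, Or.inr rfl⟩
      rw [hT, Set.biUnion_pair, hPa, hPb]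
      exact he
  · rintro t (rfl | ht)
    · rw [hPa]
      exact ht1
    · rw [Set.mem_singleton_iff] at ht
      subst ht
      rw [hPb]
      exact ht2

/-- case D: the two elements of `T` are in different branch sets -/
private lemma case_D (hPTN : StPTN) (hMDE : StMDE) (hMDQ : StMDQ) [Finite V]
    {G : SimpleGraph V} {A : Set V} {a b : V} (hab : a ≠ b) {ι : Type} [Finite ι]
    {Γ : SimpleGraph ι} {φ : ι → Set V}
    (hAT : Disjoint A {a, b}) (hk : Kc 3 Γ Set.univ) (hnp : ¬ Planar Γ)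
    (hc : Nat.card ι ≤ 6) (hmd : Md Γ (rst G (A ∪ {a, b}) ⊔ cl {a, b}) φ)
    (hcov : (⋃ i, φ i) = A ∪ {a, b}) (i i' : ι) (hi : a ∈ φ i) (hi' : b ∈ φ i')
    (hne : i ≠ i') :
    ∃ (ι : Type) (_ : Finite ι) (Γ : SimpleGraph ι) (φ : ι → Set V) (ρ : V → V),
      Mdl G (cl {a, b}) A {a, b} Γ φ ρ ∧
      ∀ t ∈ ({a, b} : Set V), Tch G (Zz A ρ) {z | ρ z = t} := by
  obtain ⟨-, -, -, -, -, -, -, -, -, hnb⟩ := hPTN
  have huniq : ∀ k l z, z ∈ φ k → z ∈ φ l → k = l := by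
    intro k l z hk' hl
    by_contra h
    exact Set.disjoint_left.1 (hmd.2.1 k l h) hk' hl
  have hsub : ∀ k, φ k ⊆ A ∪ {a, b} := fun k => hcov ▸ Set.subset_iUnion φ k
  have hbi : b ∉ φ i := fun h => hne (huniq i i' b h hi')
  have hai' : a ∉ φ i' := fun h => hne (huniq i i' a hi h)
  -- a branch set different from `i`, `i'` has no element of `T`
  have hout : ∀ k, k ≠ i → k ≠ i' → ¬ (φ k ∩ {a, b}).Nonempty := by
    rintro k h1 h2 ⟨z, hz, rfl | hz'⟩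
    · exact h1 (huniq k i z hz hi)
    · rw [Set.mem_singleton_iff] at hz'
      subst hz'
      exact h2 (huniq k i' z hz hi')
  have hnbr : ∀ k l, ∃ j, j ≠ k ∧ j ≠ l ∧ Γ.Adj k j := by
    intro k l
    obtain ⟨j, hj, hkj⟩ := hnb ι Γ hk k {l} (by rw [Set.ncard_singleton]; norm_num)
    exact ⟨j, hkj.ne', hj, hkj⟩
  have htch : ∀ k j, Γ.Adj k j → ¬ (φ j ∩ {a, b}).Nonempty → Tch G (φ j) (φ k) := by
    intro k j hkj hj
    obtain ⟨x, hx, y, hy, hxy⟩ := hmd.2.2 k j hkj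
    exact ⟨y, hy, x, hx, (adj_of' (fun h => hj ⟨y, hy, h⟩) hxy).symm⟩
  refine two_step hMDE hMDQ hab hAT hk hnp hc hmd hcov (φ i) (φ i') ?_ ?_ hi hi' ?_ ?_
    (hmd.2.1 i i' hne) ?_ ?_ ?_
  · refine con_of (hsub i) ?_ (hmd.1 i)
    intro x hx y hy hxT hyT
    have h1 : ∀ z ∈ φ i, z ∈ ({a, b} : Set V) → z = a := by
      rintro z hz (h | h)
      · exact h
      · rw [Set.mem_singleton_iff] at h
        subst h
        exact absurd hz hbi
    rw [h1 x hx hxT, h1 y hy hyT]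
  · refine con_of (hsub i') ?_ (hmd.1 i')
    intro x hx y hy hxT hyT
    have h1 : ∀ z ∈ φ i', z ∈ ({a, b} : Set V) → z = b := by
      rintro z hz (h | h)
      · subst h
        exact absurd hz hai'
      · exact h
    rw [h1 x hx hxT, h1 y hy hyT]
  · intro z hz
    rcases hsub i hz with h | h | h
    · exact Or.inl h
    · exact Or.inr h
    · rw [Set.mem_singleton_iff] at h
      subst h
      exact absurd hz hbi
  · intro z hz
    rcases hsub i' hz with h | h | h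
    · exact Or.inl h
    · subst h
      exact absurd hz hai'
    · exact Or.inr h
  · intro k hk'
    by_cases h1 : k = i
    · subst h1
      exact Or.inl ⟨hi, hbi, rfl⟩
    · by_cases h2 : k = i'
      · subst h2
        exact Or.inr (Or.inl ⟨hai', hi', rfl⟩)
      · exact absurd hk' (hout k h1 h2)
  · obtain ⟨j, hj1, hj2, hadj⟩ := hnbr i i'
    exact ⟨j, hout j hj1 hj2, htch i j hadj (hout j hj1 hj2)⟩
  · obtain ⟨j, hj1, hj2, hadj⟩ := hnbr i' i
    exact ⟨j, hout j hj2 hj1, htch i' j hadj (hout j hj2 hj1)⟩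

/-- case S: all elements of `T` are in the branch set `φ i`; the link sets -/
private lemma case_S_link (hPTN : StPTN) (hCMP : StCMP) [Finite V]
    {G : SimpleGraph V} {S A : Set V} {s : V} (hG : Kc 3 G Set.univ) (hS : S.ncard = 3)
    (hA : Cmp G S A) (hs : s ∈ S) {ι : Type} [Finite ι]
    {Γ : SimpleGraph ι} {φ : ι → Set V} (hk : Kc 3 Γ Set.univ)
    (hmd : Md Γ (rst G (A ∪ S \ {s}) ⊔ cl (S \ {s})) φ)
    (hcov : (⋃ i, φ i) = A ∪ S \ {s}) (i : ι) (hi : S \ {s} ⊆ φ i)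
    (hT : (S \ {s}).Nonempty) (v : V) :
    ∃ T' ⊆ φ i \ {v}, Con (rst G (A ∪ S \ {s}) ⊔ cl (S \ {s})) T' ∧
      (T' ∩ (S \ {s})).Nonempty ∧
      (T' ∩ {x | ∃ j, j ≠ i ∧ ∃ y ∈ φ j, G.Adj x y}).Nonempty := by
  obtain ⟨-, -, -, -, -, -, -, -, -, hnb⟩ := hPTN
  obtain ⟨-, -, -, -, -, hc6, -⟩ := hCMP V G S
  have huniq : ∀ k l z, z ∈ φ k → z ∈ φ l → k = l := by
    intro k l z hk' hl
    by_contra h
    exact Set.disjoint_left.1 (hmd.2.1 k l h) hk' hl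
  have hsub : ∀ k, φ k ⊆ A ∪ S \ {s} := fun k => hcov ▸ Set.subset_iUnion φ k
  have hoA : ∀ k, k ≠ i → φ k ⊆ A := by
    intro k hki z hz
    rcases hsub k hz with h | h
    · exact h
    · exact absurd (huniq k i z hz (hi h)) hki
  have hnT : ∀ z ∈ A, z ∉ S \ {s} := fun z hz h => Set.disjoint_left.1 hA.1 hz h.1
  obtain ⟨j, -, hij⟩ := hnb ι Γ hk i ∅ (by rw [Set.ncard_empty]; norm_num)
  have hji : j ≠ i := hij.ne'
  by_cases hv : v ∈ φ i
  swap
  · -- the whole branch set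
    obtain ⟨t, ht⟩ := hT
    obtain ⟨x, hx, y, hy, hxy⟩ := hmd.2.2 i j hij
    refine ⟨φ i, fun z hz => ⟨hz, fun h => hv (h ▸ hz)⟩, hmd.1 i, ⟨t, hi ht, ht⟩,
      ⟨x, hx, j, hji, y, hy, adj_of' (hnT y (hoA j hji hy)) hxy⟩⟩
  by_contra hno
  -- the union `W` of `X` and all components of `φ i \ {v}` which meet `E`
  obtain ⟨W, hW⟩ : ∃ W : Set V, W = {z | (∃ k, k ≠ i ∧ z ∈ φ k) ∨
      ∃ Q ⊆ φ i \ {v}, Con (rst G (A ∪ S \ {s}) ⊔ cl (S \ {s})) Q ∧ z ∈ Q ∧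
        (Q ∩ {x | ∃ j, j ≠ i ∧ ∃ y ∈ φ j, G.Adj x y}).Nonempty} := ⟨_, rfl⟩
  have hQT : ∀ Q ⊆ φ i \ {v}, Con (rst G (A ∪ S \ {s}) ⊔ cl (S \ {s})) Q →
      (Q ∩ {x | ∃ j, j ≠ i ∧ ∃ y ∈ φ j, G.Adj x y}).Nonempty → ∀ z ∈ Q, z ∈ A := by
    intro Q hQ hQc hQE z hz
    rcases hsub i (hQ hz).1 with h | h
    · exact h
    · exact absurd ⟨Q, hQ, hQc, ⟨z, hz, h⟩, hQE⟩ hno
  have hWA : W ⊆ A := by
    intro z hz
    rw [hW] at hz
    rcases hz with ⟨k, hki, hz⟩ | ⟨Q, hQ, hQc, hzQ, hQE⟩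
    · exact hoA k hki hz
    · exact hQT Q hQ hQc hQE z hzQ
  have hWS : Disjoint W S := Set.disjoint_of_subset_left hWA hA.1
  have hWne : W.Nonempty := by
    obtain ⟨z, hz⟩ := con_nonempty (hmd.1 j)
    exact ⟨z, by rw [hW]; exact Or.inl ⟨j, hji, hz⟩⟩
  have hvW : v ∉ W := by
    intro h
    rw [hW] at h
    rcases h with ⟨k, hki, hz⟩ | ⟨Q, hQ, -, hzQ, -⟩
    · exact hki (huniq k i v hz hv)
    · exact (hQ hzQ).2 rfl
  have hsW : s ∉ W := fun h => Set.disjoint_left.1 hWS h hs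
  obtain ⟨x, hx, z, hz, hzv, hzs, hxz⟩ := hc6 hG hS W hWS hWne v s hvW hsW
  have hzAT : z ∈ A ∪ S \ {s} := by
    by_cases h : z ∈ S
    · exact Or.inr ⟨h, hzs⟩
    · exact Or.inl (hA.2.2 x (hWA hx) z h hxz)
  have hzi : z ∈ φ i := by
    rw [← hcov] at hzAT
    obtain ⟨k, hk'⟩ := Set.mem_iUnion.1 hzAT
    by_cases h : k = i
    · exact h ▸ hk'
    · exact absurd (by rw [hW]; exact Or.inl ⟨k, h, hk'⟩) hz
  apply hz
  have hx' := hx
  rw [hW] at hx' ⊢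
  rcases hx' with ⟨k, hki, hxk⟩ | ⟨Q, hQ, hQc, hxQ, hQE⟩
  · refine Or.inr ⟨{z}, ?_, con_singleton _ z, rfl, ⟨z, rfl, k, hki, x, hxk, hxz.symm⟩⟩
    intro z' hz'
    rw [Set.mem_singleton_iff] at hz'
    subst hz'
    exact ⟨hzi, hzv⟩
  · refine Or.inr ⟨Q ∪ {z}, ?_, ?_, Or.inr rfl, ?_⟩
    · rintro z' (hz' | hz')
      · exact hQ hz'
      · rw [Set.mem_singleton_iff] at hz'
        subst hz'
        exact ⟨hzi, hzv⟩
    · exact con_union hQc (con_singleton _ z)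
        ⟨x, hxQ, z, rfl, adj_to (Or.inl (hWA hx)) hzAT hxz⟩
    · exact hQE.mono (Set.inter_subset_inter_left _ Set.subset_union_left)

theorem hAPM : StPTN → StCMP → StMEN → StSPM → StMDE → StMDQ → StAPM := by
  intro hPTN hCMP hMEN hSPM hMDE hMDQ V _ G S A s hG hS hA hs hstg
  have hT2 : (S \ {s}).ncard = 2 := by
    rw [Set.ncard_sdiff_singleton_of_mem hs, hS]
  have hTne : (S \ {s}).Nonempty := by
    rw [Set.nonempty_iff_ne_empty]
    intro h
    rw [h, Set.ncard_empty] at hT2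
    exact absurd hT2 (by norm_num)
  have hAT : Disjoint A (S \ {s}) := Set.disjoint_of_subset_right Set.sdiff_subset hA.1
  have hnT : ∀ z ∈ A, z ∉ S \ {s} := fun z hz h => Set.disjoint_left.1 hAT hz h
  have hc4 := (hCMP V G S).2.2.2.1 hG hS A hA
  -- `A ∪ T` is connected
  have hconA : Con (rst G (A ∪ S \ {s}) ⊔ cl (S \ {s})) A :=
    con_congr (fun a ha b hb => ⟨fun h => adj_to (Or.inl ha) (Or.inl hb) h,
      fun h => adj_of (hnT a ha) h⟩) hA.2.1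
  obtain ⟨p, q, hpq, hTpq⟩ := Set.ncard_eq_two.1 hT2
  have hpT : p ∈ S \ {s} := by rw [hTpq]; exact Or.inl rfl
  have hqT : q ∈ S \ {s} := by rw [hTpq]; exact Or.inr rfl
  have hstep : ∀ (X : Set V) (t : V), t ∈ S \ {s} → A ⊆ X →
      Con (rst G (A ∪ S \ {s}) ⊔ cl (S \ {s})) X →
      Con (rst G (A ∪ S \ {s}) ⊔ cl (S \ {s})) (X ∪ {t}) := by
    intro X t ht hAX hX
    obtain ⟨x, hx, y, hy, hxy⟩ := hc4 t ht.1
    rw [Set.mem_singleton_iff] at hx
    subst hx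
    exact con_union hX (con_singleton _ x)
      ⟨y, hAX hy, x, rfl, (adj_to (Or.inr ht) (Or.inl hy) hxy).symm⟩
  have hcon : Con (rst G (A ∪ S \ {s}) ⊔ cl (S \ {s})) (A ∪ S \ {s}) := by
    have h := hstep (A ∪ {p}) q hqT Set.subset_union_left (hstep A p hpT le_rfl hconA)
    have he : A ∪ S \ {s} = A ∪ {p} ∪ {q} := by
      rw [hTpq, Set.union_assoc, Set.singleton_union]
    have h2 : ∀ Y : Set V, Y = A ∪ {p} ∪ {q} →
        Con (rst G (A ∪ S \ {s}) ⊔ cl (S \ {s})) Y := fun Y hY => hY ▸ h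
    exact h2 _ he
  -- the spanning model
  obtain ⟨ι, hfin, Γ, φ, hc, hk, hnp, hmd, hcov⟩ := hSPM V
    (rst G (A ∪ S \ {s}) ⊔ cl (S \ {s})) (A ∪ S \ {s})
    (by
      rintro x y (h | h)
      · exact h.2.1
      · exact Or.inr h.2.1) hcon hstg
  have huniq : ∀ k l z, z ∈ φ k → z ∈ φ l → k = l := by
    intro k l z hk' hl
    by_contra h
    exact Set.disjoint_left.1 (hmd.2.1 k l h) hk' hl
  have hsub : ∀ k, φ k ⊆ A ∪ S \ {s} := fun k => hcov ▸ Set.subset_iUnion φ k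
  obtain ⟨i, hi⟩ : ∃ i, p ∈ φ i := Set.mem_iUnion.1 (hcov ▸ Or.inr hpT)
  obtain ⟨i', hi'⟩ : ∃ i, q ∈ φ i := Set.mem_iUnion.1 (hcov ▸ Or.inr hqT)
  by_cases hne : i = i'
  · -- case S
    subst hne
    have hTi : S \ {s} ⊆ φ i := by
      rw [hTpq]
      rintro z (rfl | hz)
      · exact hi
      · rw [Set.mem_singleton_iff] at hz
        subst hz
        exact hi'
    obtain ⟨P₁, P₂, hU, hC1, hC2, hd, ⟨a, haP, haT⟩, ⟨x₁, hx₁P, j₁, hj₁, y₁, hy₁, hxy₁⟩,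
      ⟨b, hbP, hbT⟩, ⟨x₂, hx₂P, j₂, hj₂, y₂, hy₂, hxy₂⟩⟩ := hMEN V
      (rst G (A ∪ S \ {s}) ⊔ cl (S \ {s})) (φ i) (S \ {s})
      {x | ∃ j, j ≠ i ∧ ∃ y ∈ φ j, G.Adj x y} (hmd.1 i)
      (case_S_link hPTN hCMP hG hS hA hs hk hmd hcov i hTi hTne)
    have hab : a ≠ b := fun h => Set.disjoint_left.1 hd haP (h ▸ hbP)
    have hTab : S \ {s} = {a, b} := by
      symm
      apply Set.eq_of_subset_of_ncard_le
      · rintro z (rfl | hz)
        · exact haT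
        · rw [Set.mem_singleton_iff] at hz
          subst hz
          exact hbT
      · rw [hT2, Set.ncard_pair hab]
      · exact Set.toFinite _
    have hout : ∀ k, k ≠ i → ¬ (φ k ∩ (S \ {s})).Nonempty := by
      rintro k hki ⟨z, hz, hzT⟩
      exact hki (huniq k i z hz (hTi hzT))
    have hP1i : P₁ ⊆ φ i := hU ▸ Set.subset_union_left
    have hP2i : P₂ ⊆ φ i := hU ▸ Set.subset_union_right
    have hbP1 : b ∉ P₁ := fun h => Set.disjoint_left.1 hd h hbP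
    have haP2 : a ∉ P₂ := fun h => Set.disjoint_left.1 hd haP h
    rw [hTab] at hsub hout hcov hmd hC1 hC2 hAT hTi ⊢
    refine two_step hMDE hMDQ hab hAT hk hnp hc hmd hcov P₁ P₂ ?_ ?_ haP hbP ?_ ?_ hd ?_ ?_ ?_
    · refine con_of (hP1i.trans (hsub i)) ?_ hC1
      intro x hx y hy hxT hyT
      have h1 : ∀ z ∈ P₁, z ∈ ({a, b} : Set V) → z = a := by
        rintro z hz (h | h)
        · exact h
        · rw [Set.mem_singleton_iff] at h
          subst h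
          exact absurd hz hbP1
      rw [h1 x hx hxT, h1 y hy hyT]
    · refine con_of (hP2i.trans (hsub i)) ?_ hC2
      intro x hx y hy hxT hyT
      have h1 : ∀ z ∈ P₂, z ∈ ({a, b} : Set V) → z = b := by
        rintro z hz (h | h)
        · subst h
          exact absurd hz haP2
        · exact h
      rw [h1 x hx hxT, h1 y hy hyT]
    · intro z hz
      rcases hsub i (hP1i hz) with h | h | h
      · exact Or.inl h
      · exact Or.inr h
      · rw [Set.mem_singleton_iff] at h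
        subst h
        exact absurd hz hbP1
    · intro z hz
      rcases hsub i (hP2i hz) with h | h | h
      · exact Or.inl h
      · subst h
        exact absurd hz haP2
      · exact Or.inr h
    · intro k hk'
      by_cases h1 : k = i
      · subst h1
        exact Or.inr (Or.inr ⟨hTi (Or.inl rfl), hTi (Or.inr rfl), hU.symm⟩)
      · exact absurd hk' (hout k h1)
    · exact ⟨j₁, hout j₁ hj₁, y₁, hy₁, x₁, hx₁P, hxy₁.symm⟩
    · exact ⟨j₂, hout j₂ hj₂, y₂, hy₂, x₂, hx₂P, hxy₂.symm⟩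
  · -- case D
    rw [hTpq] at hcov hmd hAT ⊢
    exact case_D hPTN hMDE hMDQ hpq hAT hk hnp hc hmd hcov i i' hi hi' hne

end Pool.Agent.Helper66.TS
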